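import Mathlib

/-!
Coarse geometry: the Morse lemma for discrete quasi-geodesics in a geodesic hyperbolic metric
space, and simultaneous centres of triangles for two quasi-isometric embeddings.
-/

set_option autoImplicit false

namespace Pool.Agent.H817.Coarse

/-- Gromov product -/
noncomputable def gp {X : Type*} [PseudoMetricSpace X] (o x y : X) : ℝ :=
  (dist o x + dist o y - dist x y) / 2

/-- four point condition -/
def Hyp (X : Type*) [PseudoMetricSpace X] (δ : ℝ) : Prop :=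
  ∀ x y z w : X, dist x y + dist z w ≤ max (dist x z + dist y w) (dist x w + dist y z) + 2 * δ

/-- geodesic space -/
def Geod (X : Type*) [PseudoMetricSpace X] : Prop :=
  ∀ (x y : X) (t : ℝ), 0 ≤ t → t ≤ dist x y → ∃ z, dist x z = t ∧ dist z y = dist x y - t

/-- discrete quasi-geodesic with `n` steps -/
structure QG {X : Type*} [PseudoMetricSpace X] (lam c : ℝ) (n : ℕ) (q : ℕ → X) : Prop where
  lower : ∀ i j : ℕ, i ≤ j → j ≤ n → (j - i : ℝ) ≤ lam * (dist (q i) (q j) + c)
  upper : ∀ i j : ℕ, i ≤ j → j ≤ n → dist (q i) (q j) ≤ lam * (j - i) + c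

section
variable {X : Type*} [PseudoMetricSpace X]

theorem hyp_nonneg {δ : ℝ} (hyp : Hyp X δ) (z : X) : 0 ≤ δ := by
  have h := hyp z z z z
  simp at h
  linarith

theorem hyp_gp {δ : ℝ} (hyp : Hyp X δ) (x y w z : X) :
    min (gp z x y) (gp z y w) ≤ gp z x w + δ := by
  have h := hyp x w y z
  unfold gp
  have h1 := dist_comm w z
  have h2 := dist_comm x z
  have h3 := dist_comm w y
  have h4 := dist_comm y z
  rcases le_total (dist x y + dist w z) (dist x z + dist w y) with h5 | h5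
  · rw [max_eq_right h5] at h
    refine (min_le_right _ _).trans ?_
    linarith
  · rw [max_eq_left h5] at h
    refine (min_le_left _ _).trans ?_
    linarith

theorem chain_aux {δ : ℝ} (hyp : Hyp X δ) (z : X) (m : ℕ) :
    ∀ (k : ℕ) (q : ℕ → X), 0 < k → k ≤ 2 ^ m →
      ∃ i < k, gp z (q i) (q (i + 1)) ≤ gp z (q 0) (q k) + δ * m := by
  have hδ : 0 ≤ δ := hyp_nonneg hyp z
  induction m with
  | zero =>
    intro k q hk hk2
    have h1 : k = 1 := by
      rw [pow_zero] at hk2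
      omega
    subst h1
    refine ⟨0, by norm_num, ?_⟩
    simp
  | succ m ih =>
    intro k q hk hk2
    by_cases h1 : k = 1
    · subst h1
      refine ⟨0, by norm_num, ?_⟩
      have : 0 ≤ δ * ((m + 1 : ℕ) : ℝ) := by positivity
      simp only [zero_add]
      linarith
    · have h2 : 0 < k / 2 := by omega
      have h3 : k / 2 ≤ 2 ^ m := by
        rw [pow_succ] at hk2
        omega
      have h4 : 0 < k - k / 2 := by omega
      have h5 : k - k / 2 ≤ 2 ^ m := by
        rw [pow_succ] at hk2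
        omega
      have h6 := hyp_gp hyp (q 0) (q (k / 2)) (q k) z
      rcases min_le_iff.1 h6 with h7 | h7
      · obtain ⟨i, hi, hi2⟩ := ih (k / 2) q h2 h3
        refine ⟨i, by omega, ?_⟩
        push_cast
        linarith
      · obtain ⟨i, hi, hi2⟩ := ih (k - k / 2) (fun i => q (k / 2 + i)) h4 h5
        refine ⟨k / 2 + i, by omega, ?_⟩
        have h8 : k / 2 + (k - k / 2) = k := by omega
        simp only [add_zero, h8] at hi2
        rw [add_assoc]
        push_cast
        linarith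

/-- a chain with steps at most `s` passes close to every point `z`, in terms of the Gromov product
of its ends at `z` -/
theorem chain_near {δ : ℝ} (hyp : Hyp X δ) (s : ℝ)
    (k : ℕ) (q : ℕ → X) (hk : 0 < k) (hq : ∀ i < k, dist (q i) (q (i + 1)) ≤ s) (z : X) :
    ∃ i ≤ k, dist z (q i) ≤ gp z (q 0) (q k) + δ * (Nat.log 2 k + 1) + s := by
  obtain ⟨i, hi, hi2⟩ := chain_aux hyp z (Nat.log 2 k + 1) k q hk
    (Nat.lt_pow_succ_log_self (by norm_num) k).le
  refine ⟨i, hi.le, ?_⟩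
  have h1 := hq i hi
  have h2 := dist_triangle z (q (i + 1)) (q i)
  have h3 := dist_comm (q (i + 1)) (q i)
  have h4 : gp z (q i) (q (i + 1)) =
    (dist z (q i) + dist z (q (i + 1)) - dist (q i) (q (i + 1))) / 2 := rfl
  push_cast at hi2
  linarith

theorem morse_sub {δ : ℝ} (hyp : Hyp X δ) {lam c : ℝ} (hlam : 0 ≤ lam) (hc : 0 ≤ c)
    {n : ℕ} {q : ℕ → X} (hq : QG lam c n q) (z0 : X) (R : ℝ) (h1 : ∀ i ≤ n, R ≤ dist z0 (q i))
    (a b : ℕ) (hab : a ≤ b) (hb : b ≤ n) :
    R ≤ gp z0 (q a) (q b) + δ * (Nat.log 2 (b - a) + 1) + (lam + c) := by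
  have hδ : 0 ≤ δ := hyp_nonneg hyp z0
  rcases hab.eq_or_lt with h | h
  · subst h
    have h2 := h1 a hb
    have h3 : gp z0 (q a) (q a) = dist z0 (q a) := by
      unfold gp
      rw [dist_self]
      ring
    rw [h3]
    have : 0 ≤ δ * ((Nat.log 2 (a - a) : ℕ) + 1 : ℝ) := by positivity
    linarith
  · obtain ⟨i, hi, hdi⟩ := chain_near hyp (lam + c) (b - a) (fun j => q (a + j)) (by omega) (by
      intro i hi
      have h2 := hq.upper (a + i) (a + (i + 1)) (by omega) (by omega)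
      push_cast at h2
      have h3 : lam * ((a : ℝ) + (i + 1) - (a + i)) = lam := by ring
      rw [h3] at h2
      exact h2) z0
    have h4 : a + (b - a) = b := by omega
    simp only [add_zero, h4] at hdi
    exact (h1 (a + i) (by omega)).trans hdi

theorem morse_end (geo : Geod X) (k : ℕ) (q : ℕ → X)
    (z0 x : X) (i0 : ℕ) (hi0 : i0 ≤ k) (hx : q i0 = x) (R : ℝ) (hR : 0 ≤ R)
    (h1 : ∀ i ≤ k, R ≤ dist z0 (q i))
    (h2 : ∀ z, dist x z + dist z z0 = dist x z0 → ∃ i ≤ k, dist z (q i) ≤ R + 1) :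
    ∃ y1, ∃ a ≤ k, dist x y1 + dist y1 z0 = dist x z0 ∧ dist y1 z0 ≤ 2 * (R + 1) ∧
      dist y1 (q a) ≤ R + 1 ∧ R ≤ gp z0 y1 (q a) := by
  rcases le_or_gt (dist x z0) (2 * (R + 1)) with hcase | hcase
  · refine ⟨x, i0, hi0, ?_, hcase, ?_, ?_⟩
    · rw [dist_self, zero_add]
    · rw [hx, dist_self]
      linarith
    · have h3 := h1 i0 hi0
      rw [hx] at h3 ⊢
      unfold gp
      rw [dist_self]
      linarith
  · have hs := dist_comm z0 x
    obtain ⟨y1, hy1, hy1'⟩ := geo z0 x (2 * (R + 1)) (by linarith) (by linarith)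
    have s1 := dist_comm z0 y1
    have s2 := dist_comm y1 x
    have e1 : dist x y1 + dist y1 z0 = dist x z0 := by linarith
    obtain ⟨a, ha, hda⟩ := h2 y1 e1
    refine ⟨y1, a, ha, e1, by linarith, hda, ?_⟩
    have h3 := h1 a ha
    unfold gp
    linarith

theorem morse_core {δ : ℝ} (hyp : Hyp X δ) (geo : Geod X) {lam c : ℝ} (hlam : 0 ≤ lam)
    (hc : 0 ≤ c) {n : ℕ} {q : ℕ → X} (hq : QG lam c n q)
    (z0 : X) (hz0 : dist (q 0) z0 + dist z0 (q n) = dist (q 0) (q n)) (R : ℝ) (hR : 0 ≤ R)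
    (h1 : ∀ i ≤ n, R ≤ dist z0 (q i))
    (h2 : ∀ z, dist (q 0) z + dist z (q n) = dist (q 0) (q n) → ∃ i ≤ n, dist z (q i) ≤ R + 1) :
    ∃ t : ℕ, R ≤ δ * (t + 3) + (lam + c) ∧ (2 : ℝ) ^ t ≤ lam * (6 * (R + 1) + c) + 1 := by
  have hδ : 0 ≤ δ := hyp_nonneg hyp z0
  obtain ⟨y1, a, ha, ea, la, da, ga⟩ := morse_end geo n q z0 (q 0) 0 (Nat.zero_le n) rfl R hR h1
    (by
      intro z hz
      refine h2 z ?_
      have t1 := dist_triangle z z0 (q n)
      have t2 := dist_triangle (q 0) z (q n)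
      linarith)
  obtain ⟨y2, b, hb, eb, lb, db, gb⟩ := morse_end geo n q z0 (q n) n le_rfl rfl R hR h1
    (by
      intro z hz
      refine h2 z ?_
      have t1 := dist_triangle (q 0) z0 z
      have t2 := dist_triangle (q 0) z (q n)
      have s1 := dist_comm z0 z
      have s2 := dist_comm z0 (q n)
      have s3 := dist_comm (q n) z
      linarith)
  have sy1 := dist_comm y1 z0
  have sy2 := dist_comm y2 z0
  have hg : gp z0 y1 y2 ≤ 0 := by
    unfold gp
    have t1 := dist_triangle (q 0) y1 (q n)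
    have t2 := dist_triangle y1 y2 (q n)
    have s1 := dist_comm z0 (q n)
    have s2 := dist_comm (q n) y2
    linarith
  have hdab : dist (q a) (q b) ≤ 6 * (R + 1) := by
    have t1 := dist_triangle (q a) y1 (q b)
    have t2 := dist_triangle y1 z0 (q b)
    have t3 := dist_triangle z0 y2 (q b)
    have s1 := dist_comm (q a) y1
    linarith
  have key : ∃ t : ℕ, R ≤ gp z0 (q a) (q b) + δ * (t + 1) + (lam + c) ∧
      (2 : ℝ) ^ t ≤ lam * (6 * (R + 1) + c) + 1 := by
    have hlog : ∀ m : ℕ, (2 : ℝ) ^ (Nat.log 2 m) ≤ m + 1 := by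
      intro m
      rcases Nat.eq_zero_or_pos m with h | h
      · subst h
        simp
      · have h2 : 2 ^ Nat.log 2 m ≤ m := Nat.pow_log_le_self 2 (by omega)
        have h3 : (2 : ℝ) ^ (Nat.log 2 m) ≤ m := by exact_mod_cast h2
        linarith
    rcases le_total a b with hab | hab
    · refine ⟨Nat.log 2 (b - a), morse_sub hyp hlam hc hq z0 R h1 a b hab hb, ?_⟩
      have h3 := hlog (b - a)
      have h4 := hq.lower a b hab hb
      rw [Nat.cast_sub hab] at h3
      have h5 : lam * (dist (q a) (q b) + c) ≤ lam * (6 * (R + 1) + c) :=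
        mul_le_mul_of_nonneg_left (by linarith) hlam
      linarith
    · refine ⟨Nat.log 2 (a - b), ?_, ?_⟩
      · have h3 := morse_sub hyp hlam hc hq z0 R h1 b a hab ha
        have : gp z0 (q b) (q a) = gp z0 (q a) (q b) := by
          unfold gp
          rw [dist_comm (q b) (q a)]
          ring
        rw [this] at h3
        exact h3
      · have h3 := hlog (a - b)
        have h4 := hq.lower b a hab ha
        rw [Nat.cast_sub hab] at h3
        rw [dist_comm] at h4
        have h5 : lam * (dist (q a) (q b) + c) ≤ lam * (6 * (R + 1) + c) :=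
          mul_le_mul_of_nonneg_left (by linarith) hlam
        linarith
  obtain ⟨t, ht1, ht2⟩ := key
  refine ⟨t, ?_, ht2⟩
  have g1 := hyp_gp hyp y1 (q a) y2 z0
  have g2 := hyp_gp hyp (q a) (q b) y2 z0
  have gb' : R ≤ gp z0 (q b) y2 := by
    have : gp z0 y2 (q b) = gp z0 (q b) y2 := by
      unfold gp
      rw [dist_comm (q b) y2]
      ring
    rw [← this]
    exact gb
  have ht0 : (0 : ℝ) ≤ δ * t := mul_nonneg hδ (Nat.cast_nonneg t)
  rcases min_le_iff.1 g1 with h3 | h3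
  · linarith [mul_add δ (t : ℝ) 3]
  · rcases min_le_iff.1 g2 with h4 | h4
    · linarith [mul_add δ (t : ℝ) 3, mul_add δ (t : ℝ) 1]
    · linarith [mul_add δ (t : ℝ) 3]

theorem morse_bound (δ lam c : ℝ) : ∃ t0 : ℕ, ∀ t : ℕ,
    (2 : ℝ) ^ t ≤ lam * (6 * (δ * (t + 3) + (lam + c) + 1) + c) + 1 → t ≤ t0 := by
  have l1 := tendsto_pow_const_div_const_pow_of_one_lt 1 (one_lt_two (α := ℝ))
  have l0 := tendsto_pow_const_div_const_pow_of_one_lt 0 (one_lt_two (α := ℝ))
  have l2 := (l1.const_mul (6 * lam * δ)).add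
    (l0.const_mul (lam * (6 * (δ * 3 + (lam + c) + 1) + c) + 1))
  rw [mul_zero, mul_zero, add_zero] at l2
  obtain ⟨T, hT⟩ := Filter.eventually_atTop.1 (l2.eventually_lt_const (zero_lt_one (α := ℝ)))
  refine ⟨T, fun t ht => ?_⟩
  by_contra hcon
  have h1 := hT t (by omega)
  have h2 : (0 : ℝ) < 2 ^ t := by positivity
  rw [pow_one, pow_zero, ← mul_div_assoc, ← mul_div_assoc, ← add_div, div_lt_one h2] at h1
  nlinarith

theorem morse_max (k : ℕ) (q : ℕ → X) (x y : X) (hq0 : q 0 = x) :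
    ∃ z0, dist x z0 + dist z0 y = dist x y ∧ ∃ R, 0 ≤ R ∧ (∀ i ≤ k, R ≤ dist z0 (q i)) ∧
      ∀ z, dist x z + dist z y = dist x y → ∃ i ≤ k, dist z (q i) ≤ R + 1 := by
  have hne : (Finset.range (k + 1)).Nonempty := ⟨0, by simp⟩
  obtain ⟨D, hD⟩ : ∃ D : X → ℝ, D = fun z => (Finset.range (k + 1)).inf' hne
    (fun i => dist z (q i)) := ⟨_, rfl⟩
  have hDle : ∀ z, ∀ i ≤ k, D z ≤ dist z (q i) := by
    intro z i hi
    rw [hD]
    exact Finset.inf'_le _ (Finset.mem_range.2 (by omega))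
  have hDex : ∀ z, ∃ i ≤ k, D z = dist z (q i) := by
    intro z
    obtain ⟨i, hi, he⟩ := Finset.exists_mem_eq_inf' hne (fun i => dist z (q i))
    refine ⟨i, by have := Finset.mem_range.1 hi; omega, ?_⟩
    rw [hD]
    exact he
  have hSne : (D '' {z | dist x z + dist z y = dist x y}).Nonempty :=
    ⟨D x, x, by change dist x x + dist x y = dist x y; rw [dist_self, zero_add], rfl⟩
  have hSb : BddAbove (D '' {z | dist x z + dist z y = dist x y}) := by
    refine ⟨dist x y, ?_⟩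
    rintro _ ⟨z, hz, rfl⟩
    have h1 := hDle z 0 (Nat.zero_le k)
    rw [hq0, dist_comm z x] at h1
    have h2 : dist x z + dist z y = dist x y := hz
    have h3 : 0 ≤ dist z y := dist_nonneg
    linarith
  obtain ⟨_, ⟨z0, hz0, rfl⟩, hlt⟩ := exists_lt_of_lt_csSup hSne
    (sub_one_lt (sSup (D '' {z | dist x z + dist z y = dist x y})))
  refine ⟨z0, hz0, D z0, ?_, hDle z0, fun z hz => ?_⟩
  · obtain ⟨i, _, he⟩ := hDex z0
    rw [he]
    exact dist_nonneg
  · obtain ⟨i, hi, he⟩ := hDex z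
    refine ⟨i, hi, ?_⟩
    rw [← he]
    have h1 : D z ≤ sSup (D '' {z | dist x z + dist z y = dist x y}) := le_csSup hSb ⟨z, hz, rfl⟩
    linarith

/-- the Morse lemma: geodesics are close to quasi-geodesics -/
theorem morse1 {δ : ℝ} (hyp : Hyp X δ) (geo : Geod X) {lam c : ℝ} (hlam : 0 ≤ lam)
    (hc : 0 ≤ c) : ∃ R : ℝ, 0 ≤ R ∧ ∀ (n : ℕ) (q : ℕ → X), QG lam c n q →
      ∀ z, dist (q 0) z + dist z (q n) = dist (q 0) (q n) → ∃ i ≤ n, dist z (q i) ≤ R := by
  by_cases hα : Nonempty X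
  swap
  · exact ⟨0, le_rfl, fun _ q => absurd ⟨q 0⟩ hα⟩
  obtain ⟨o⟩ := hα
  have hδ : 0 ≤ δ := hyp_nonneg hyp o
  obtain ⟨t0, ht0⟩ := morse_bound δ lam c
  have hC0 : 0 ≤ δ * ((t0 : ℝ) + 3) := mul_nonneg hδ (by positivity)
  refine ⟨δ * ((t0 : ℝ) + 3) + (lam + c) + 1, by linarith, ?_⟩
  intro n q hq z hz
  obtain ⟨z0, hz0, R, hR0, hR1, hR2⟩ := morse_max n q (q 0) (q n) rfl
  obtain ⟨t, ht1, ht2⟩ := morse_core hyp geo hlam hc hq z0 hz0 R hR0 hR1 hR2
  have ht : t ≤ t0 := by
    refine ht0 t (ht2.trans ?_)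
    have h3 : lam * (6 * (R + 1) + c) ≤ lam * (6 * (δ * (t + 3) + (lam + c) + 1) + c) :=
      mul_le_mul_of_nonneg_left (by linarith) hlam
    linarith
  have h3 : (t : ℝ) ≤ t0 := by exact_mod_cast ht
  have h4 : δ * ((t : ℝ) + 3) ≤ δ * ((t0 : ℝ) + 3) :=
    mul_le_mul_of_nonneg_left (by linarith) hδ
  obtain ⟨i, hi, hdi⟩ := hR2 z hz
  exact ⟨i, hi, by linarith⟩

/-- the Morse lemma: quasi-geodesics are close to geodesics -/
theorem morse2 {δ : ℝ} (hyp : Hyp X δ) (geo : Geod X) {lam c : ℝ} (hlam : 0 ≤ lam)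
    (hc : 0 ≤ c) : ∃ R : ℝ, 0 ≤ R ∧ ∀ (n : ℕ) (q : ℕ → X), QG lam c n q →
      ∀ i ≤ n, dist (q 0) (q i) + dist (q i) (q n) ≤ dist (q 0) (q n) + R := by
  by_cases hα : Nonempty X
  swap
  · exact ⟨0, le_rfl, fun _ q => absurd ⟨q 0⟩ hα⟩
  obtain ⟨o⟩ := hα
  have hδ : 0 ≤ δ := hyp_nonneg hyp o
  obtain ⟨R, hR, hm⟩ := morse1 hyp geo hlam hc
  refine ⟨2 * (lam * (lam * (2 * R + 1 + 2 * δ + c)) + c + (R + 1 + 2 * δ)), by positivity, ?_⟩
  intro n q hq i hi
  obtain ⟨l, hl⟩ : ∃ l, l = dist (q 0) (q n) := ⟨_, rfl⟩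
  have hl0 : 0 ≤ l := by rw [hl]; exact dist_nonneg
  -- points on geodesics
  have hz : ∀ j : ℕ, ∃ z, dist (q 0) z = min (j : ℝ) l ∧ dist z (q n) = l - min (j : ℝ) l := by
    intro j
    obtain ⟨z, h1, h2⟩ := geo (q 0) (q n) (min (j : ℝ) l) (le_min (Nat.cast_nonneg j) hl0)
      (by rw [← hl]; exact min_le_right _ _)
    exact ⟨z, h1, by rw [h2, ← hl]⟩
  choose z hz1 hz2 using hz
  have hstep : ∀ j, dist (z j) (z (j + 1)) ≤ 1 + 2 * δ := by
    intro j
    have h := hyp (q 0) (q n) (z j) (z (j + 1))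
    rw [hz1, hz1, dist_comm (q n) (z j), dist_comm (q n) (z (j + 1)), hz2, hz2, ← hl] at h
    have h1 : min (j : ℝ) l ≤ min ((j + 1 : ℕ) : ℝ) l := by
      refine min_le_min ?_ le_rfl
      push_cast
      linarith
    have h2 : min ((j + 1 : ℕ) : ℝ) l ≤ min (j : ℝ) l + 1 := by
      push_cast
      rcases le_total (j : ℝ) l with h3 | h3
      · rw [min_eq_left h3]
        exact min_le_left _ _
      · rw [min_eq_right h3]
        have := min_le_right ((j : ℝ) + 1) l
        linarith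
    rcases max_le_iff.1 (le_refl (max (min (j : ℝ) l + (l - min ((j + 1 : ℕ) : ℝ) l))
      (min ((j + 1 : ℕ) : ℝ) l + (l - min (j : ℝ) l)))) with ⟨h5, h6⟩
    have h7 : max (min (j : ℝ) l + (l - min ((j + 1 : ℕ) : ℝ) l))
      (min ((j + 1 : ℕ) : ℝ) l + (l - min (j : ℝ) l)) ≤ l + 1 := by
      apply max_le <;> linarith
    linarith
  have hcov : ∀ j, ∃ a ≤ n, dist (z j) (q a) ≤ R := by
    intro j
    exact hm n q hq (z j) (by rw [hz1, hz2, ← hl]; ring)
  -- crossing
  have hex : ∃ j, ∃ a, i ≤ a ∧ a ≤ n ∧ dist (z j) (q a) ≤ R := by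
    obtain ⟨N, hN⟩ := exists_nat_ge l
    refine ⟨N, n, hi, le_rfl, ?_⟩
    rw [hz2, min_eq_right hN]
    linarith
  classical
  obtain ⟨a', ha'1, ha'2, ha'3⟩ := Nat.find_spec hex
  have hmin : ∀ j < Nat.find hex, ¬ ∃ a, i ≤ a ∧ a ≤ n ∧ dist (z j) (q a) ≤ R :=
    fun j hj => Nat.find_min hex hj
  obtain ⟨j, hj⟩ : ∃ j, j = Nat.find hex := ⟨_, rfl⟩
  rw [← hj] at ha'3 hmin
  have hlow : ∃ a ≤ i, dist (z j) (q a) ≤ R + 1 + 2 * δ := by
    rcases Nat.eq_zero_or_pos j with h0 | h0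
    · refine ⟨0, Nat.zero_le i, ?_⟩
      rw [h0, dist_comm, hz1, Nat.cast_zero, min_eq_left hl0]
      linarith
    · obtain ⟨a, ha1, ha2⟩ := hcov (j - 1)
      have h3 := hmin (j - 1) (by omega)
      have h4 : a ≤ i := by
        by_contra hcon
        exact h3 ⟨a, by omega, ha1, ha2⟩
      refine ⟨a, h4, ?_⟩
      have h5 := hstep (j - 1)
      have h6 : j - 1 + 1 = j := by omega
      rw [h6] at h5
      have h7 := dist_triangle (z j) (z (j - 1)) (q a)
      rw [dist_comm (z j) (z (j - 1))] at h7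
      linarith
  obtain ⟨a, ha1, ha2⟩ := hlow
  have h1 : dist (q a) (q a') ≤ 2 * R + 1 + 2 * δ := by
    have := dist_triangle (q a) (z j) (q a')
    rw [dist_comm (q a) (z j)] at this
    linarith
  have h2 := hq.lower a a' (by omega) ha'2
  have h3 := hq.upper a i ha1 hi
  have h4 : (i : ℝ) ≤ a' := by exact_mod_cast ha'1
  have h5 : lam * ((i : ℝ) - a) ≤ lam * (lam * (2 * R + 1 + 2 * δ + c)) := by
    refine mul_le_mul_of_nonneg_left ?_ hlam
    have h6 : lam * (dist (q a) (q a') + c) ≤ lam * (2 * R + 1 + 2 * δ + c) :=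
      mul_le_mul_of_nonneg_left (by linarith) hlam
    linarith
  have h6 : dist (q i) (z j) ≤ lam * (lam * (2 * R + 1 + 2 * δ + c)) + c + (R + 1 + 2 * δ) := by
    have := dist_triangle (q i) (q a) (z j)
    rw [dist_comm (q i) (q a), dist_comm (q a) (z j)] at this
    linarith
  have e1 := dist_triangle (q 0) (z j) (q i)
  have e2 := dist_triangle (q i) (z j) (q n)
  rw [dist_comm (z j) (q i)] at e1
  rw [hz1] at e1
  rw [hz2] at e2
  rw [← hl]
  linarith

/-- a point with small Gromov product is close to a point of a geodesic -/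
theorem near_geod {δ : ℝ} (hyp : Hyp X δ) (geo : Geod X) (K : ℝ) (x y z : X)
    (h : dist x z + dist z y ≤ dist x y + K) :
    ∃ w, dist x w + dist w y = dist x y ∧ dist z w ≤ K + 2 * δ := by
  have hK : 0 ≤ K := by
    have := dist_triangle x z y
    linarith
  obtain ⟨w, hw1, hw2⟩ := geo x y (min (dist x z) (dist x y)) (le_min dist_nonneg dist_nonneg)
    (min_le_right _ _)
  have hw3 : dist x w + dist w y = dist x y := by rw [hw1, hw2]; ring
  refine ⟨w, hw3, ?_⟩
  have h4 := hyp x y z w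
  have e1 : dist x z + dist y w ≤ dist x y + K := by
    rw [dist_comm y w, hw2]
    rcases le_total (dist x z) (dist x y) with h | h
    · rw [min_eq_left h]; linarith
    · rw [min_eq_right h]
      have : 0 ≤ dist z y := dist_nonneg
      linarith
  have e2 : dist x w + dist y z ≤ dist x y + K := by
    rw [hw1, dist_comm y z]
    have := min_le_left (dist x z) (dist x y)
    linarith
  have e3 := max_le e1 e2
  linarith

/-- centre of a geodesic triangle -/
theorem center {δ : ℝ} (hyp : Hyp X δ) (geo : Geod X) (x y z : X) :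
    ∃ p, dist x p + dist p y ≤ dist x y + 2 * δ ∧ dist y p + dist p z ≤ dist y z + 2 * δ ∧
      dist x p + dist p z ≤ dist x z + 2 * δ := by
  have hδ := hyp_nonneg hyp x
  have t1 := dist_triangle x z y
  have t2 := dist_triangle x y z
  have t3 := dist_triangle y x z
  have s1 := dist_comm z y
  have s2 := dist_comm y x
  obtain ⟨p, hp1, hp2⟩ := geo x y ((dist x y + dist x z - dist y z) / 2) (by linarith)
    (by linarith)
  have h := hyp p z x y
  rw [dist_comm p x, hp2, hp1, dist_comm z y, dist_comm z x] at h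
  have h2 : max ((dist x y + dist x z - dist y z) / 2 + dist y z)
      (dist x y - (dist x y + dist x z - dist y z) / 2 + dist x z) =
      (dist x y + dist x z + dist y z) / 2 := by
    have e1 : (dist x y + dist x z - dist y z) / 2 + dist y z =
      (dist x y + dist x z + dist y z) / 2 := by ring
    have e2 : dist x y - (dist x y + dist x z - dist y z) / 2 + dist x z =
      (dist x y + dist x z + dist y z) / 2 := by ring
    rw [e1, e2, max_self]
  rw [h2] at h
  have s3 := dist_comm y p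
  exact ⟨p, by linarith, by linarith, by linarith⟩

end

/-- quasi-isometric embedding -/
structure QIE {Z X : Type*} [PseudoMetricSpace Z] [PseudoMetricSpace X] (L A : ℝ) (f : Z → X) :
    Prop where
  upper : ∀ z z', dist (f z) (f z') ≤ L * dist z z' + A
  lower : ∀ z z', dist z z' ≤ L * (dist (f z) (f z') + A)

theorem QG.comp {Z X : Type*} [PseudoMetricSpace Z] [PseudoMetricSpace X] {L A : ℝ} {f : Z → X}
    (hf : QIE L A f) (hL : 1 ≤ L) (hA : 0 ≤ A) {lam c : ℝ} (hlam : 0 ≤ lam) (hc : 0 ≤ c)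
    {n : ℕ} {q : ℕ → Z} (hq : QG lam c n q) :
    QG (lam * L) (L * c + A) n (fun i => f (q i)) := by
  constructor
  · intro i j hij hj
    have h1 := hq.lower i j hij hj
    have h2 := hf.lower (q i) (q j)
    have h3 : lam * (dist (q i) (q j) + c) ≤
        lam * (L * (dist (f (q i)) (f (q j)) + A) + L * (L * c)) := by
      refine mul_le_mul_of_nonneg_left ?_ hlam
      nlinarith [mul_nonneg (sub_nonneg.2 hL) hc, mul_nonneg (mul_nonneg (sub_nonneg.2 hL) hc)
        (by linarith : (0:ℝ) ≤ L)]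
    refine h1.trans (h3.trans (le_of_eq ?_))
    ring
  · intro i j hij hj
    have h1 := hq.upper i j hij hj
    have h2 := hf.upper (q i) (q j)
    have h3 : L * dist (q i) (q j) ≤ L * (lam * (j - i) + c) :=
      mul_le_mul_of_nonneg_left h1 (by linarith)
    refine h2.trans ?_
    have : L * (lam * (j - i) + c) + A = lam * L * (j - i) + (L * c + A) := by ring
    linarith

/-- any two points are joined by a discrete quasi-geodesic, with uniform constants -/
def QGSpace (Z : Type*) [PseudoMetricSpace Z] (lam c : ℝ) : Prop :=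
  ∀ x y : Z, ∃ (n : ℕ) (q : ℕ → Z), q 0 = x ∧ q n = y ∧ QG lam c n q

/-- `w` is a `D`-centre of the triangle -/
def IsCenter {X : Type*} [PseudoMetricSpace X] (D : ℝ) (w a b c : X) : Prop :=
  dist w a + dist w b ≤ dist a b + D ∧ dist w b + dist w c ≤ dist b c + D ∧
    dist w a + dist w c ≤ dist a c + D

theorem IsCenter.mono {X : Type*} [PseudoMetricSpace X] {D D' : ℝ} {w a b c : X}
    (h : IsCenter D w a b c) (hD : D ≤ D') : IsCenter D' w a b c :=
  ⟨h.1.trans (by linarith), h.2.1.trans (by linarith), h.2.2.trans (by linarith)⟩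

/-- simultaneous centres of triangles for two quasi-isometric embeddings -/
theorem common_center {Z X Y : Type*} [PseudoMetricSpace Z] [PseudoMetricSpace X]
    [PseudoMetricSpace Y] {δ : ℝ} (hX : Hyp X δ) (gX : Geod X) {δ' : ℝ} (hY : Hyp Y δ')
    (gY : Geod Y) {lam c : ℝ} (hlam : 0 ≤ lam) (hc : 0 ≤ c) (hZ : QGSpace Z lam c)
    {L A : ℝ} (hL : 1 ≤ L) (hA : 0 ≤ A) {f : Z → X} (hf : QIE L A f) {g : Z → Y}
    (hg : QIE L A g) :
    ∃ D : ℝ, 0 ≤ D ∧ ∀ a b c : Z, ∃ w : Z, IsCenter D (f w) (f a) (f b) (f c) ∧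
      IsCenter D (g w) (g a) (g b) (g c) := by
  have hlL : 0 ≤ lam * L := mul_nonneg hlam (by linarith)
  have hcL : 0 ≤ L * c + A := add_nonneg (mul_nonneg (by linarith) hc) hA
  obtain ⟨R1, hR1, m1⟩ := morse1 hX gX hlL hcL
  obtain ⟨R2, hR2, m2⟩ := morse2 hX gX hlL hcL
  obtain ⟨R3, hR3, m3⟩ := morse2 hY gY hlL hcL
  -- a side
  have side : ∀ (a b : Z) (p : X), dist (f a) p + dist p (f b) ≤ dist (f a) (f b) + 2 * δ →
      ∃ w, dist p (f w) ≤ R1 + 4 * δ ∧ dist (f w) (f a) + dist (f w) (f b) ≤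
        dist (f a) (f b) + R2 ∧ dist (g w) (g a) + dist (g w) (g b) ≤ dist (g a) (g b) + R3 := by
    intro a b p hp
    obtain ⟨n, q, hq0, hqn, hq⟩ := hZ a b
    obtain ⟨p', hp', hpp⟩ := near_geod hX gX (2 * δ) (f a) (f b) p hp
    obtain ⟨i, hi, hdi⟩ := m1 n (fun i => f (q i)) (hq.comp hf hL hA hlam hc) p'
      (by simp only [hq0, hqn]; exact hp')
    have h2 := m2 n (fun i => f (q i)) (hq.comp hf hL hA hlam hc) i hi
    have h3 := m3 n (fun i => g (q i)) (hq.comp hg hL hA hlam hc) i hi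
    simp only [hq0, hqn] at h2 h3 hdi
    refine ⟨q i, ?_, ?_, ?_⟩
    · have := dist_triangle p p' (f (q i))
      linarith
    · rw [dist_comm (f (q i)) (f a)]
      exact h2
    · rw [dist_comm (g (q i)) (g a)]
      exact h3
  obtain ⟨E, hE⟩ : ∃ E, E = 2 * (R1 + 4 * δ) := ⟨_, rfl⟩
  obtain ⟨E', hE'⟩ : ∃ E', E' = L * (L * (E + A)) + A := ⟨_, rfl⟩
  refine ⟨R2 + R3 + 2 * |E| + 2 * |E'|, by positivity, ?_⟩
  intro a b c
  obtain ⟨p, hp1, hp2, hp3⟩ := center hX gX (f a) (f b) (f c)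
  obtain ⟨w1, u1, v1, z1⟩ := side a b p hp1
  obtain ⟨w2, u2, v2, z2⟩ := side b c p hp2
  obtain ⟨w3, u3, v3, z3⟩ := side a c p hp3
  have f12 : dist (f w1) (f w2) ≤ E := by
    have := dist_triangle (f w1) p (f w2)
    rw [dist_comm (f w1) p] at this
    linarith
  have f13 : dist (f w1) (f w3) ≤ E := by
    have := dist_triangle (f w1) p (f w3)
    rw [dist_comm (f w1) p] at this
    linarith
  have gg : ∀ w, dist (f w1) (f w) ≤ E → dist (g w1) (g w) ≤ E' := by
    intro w hw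
    have h1 := hg.upper w1 w
    have h2 := hf.lower w1 w
    have h3 : L * dist w1 w ≤ L * (L * (E + A)) := by
      refine mul_le_mul_of_nonneg_left (h2.trans ?_) (by linarith)
      exact mul_le_mul_of_nonneg_left (by linarith) (by linarith)
    linarith
  have g12 := gg w2 f12
  have g13 := gg w3 f13
  have aE := le_abs_self E
  have aE' := le_abs_self E'
  have aE0 := abs_nonneg E
  have aE0' := abs_nonneg E'
  refine ⟨w1, ⟨by linarith, ?_, ?_⟩, ⟨by linarith, ?_, ?_⟩⟩
  · have t1 := dist_triangle (f w1) (f w2) (f b)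
    have t2 := dist_triangle (f w1) (f w2) (f c)
    linarith
  · have t1 := dist_triangle (f w1) (f w3) (f a)
    have t2 := dist_triangle (f w1) (f w3) (f c)
    linarith
  · have t1 := dist_triangle (g w1) (g w2) (g b)
    have t2 := dist_triangle (g w1) (g w2) (g c)
    linarith
  · have t1 := dist_triangle (g w1) (g w3) (g a)
    have t2 := dist_triangle (g w1) (g w3) (g c)
    linarith

end Pool.Agent.H817.Coarse
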