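import Pool.Agent.H817.Coarse

/-!
Facts on `SL₂(ℝ)` acting on the upper half plane: Cartan decomposition, hyperbolicity, geodesics,
centres of triangles.
-/

set_option autoImplicit false

namespace Pool.Agent.H817.HGeom

open Matrix UpperHalfPlane
open Pool.Agent.H817.Coarse

/-- `SL₂(ℝ)` -/
abbrev SL := Matrix.SpecialLinearGroup (Fin 2) ℝ

/-- the maximal compact subgroup `SO(2)` of `SL₂(ℝ)` -/
def SO2 : Subgroup SL where
  carrier := {k | (k : Matrix (Fin 2) (Fin 2) ℝ) * (k : Matrix (Fin 2) (Fin 2) ℝ)ᵀ = 1}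
  mul_mem' := by
    intro a b ha hb
    simp only [Set.mem_ofPred_eq] at *
    rw [Matrix.SpecialLinearGroup.coe_mul, Matrix.transpose_mul]
    calc (a : Matrix (Fin 2) (Fin 2) ℝ) * b * ((b : Matrix (Fin 2) (Fin 2) ℝ)ᵀ * (a : Matrix (Fin 2) (Fin 2) ℝ)ᵀ)
        = a * (b * (b : Matrix (Fin 2) (Fin 2) ℝ)ᵀ) * (a : Matrix (Fin 2) (Fin 2) ℝ)ᵀ := by
          simp only [Matrix.mul_assoc]
      _ = 1 := by rw [hb, Matrix.mul_one, ha]
  one_mem' := by simp
  inv_mem' := by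
    intro a ha
    simp only [Set.mem_ofPred_eq] at *
    have h1 : (a⁻¹ : SL) * a = 1 := inv_mul_cancel a
    have h2 : ((a⁻¹ : SL) : Matrix (Fin 2) (Fin 2) ℝ) * a = 1 := by
      rw [← Matrix.SpecialLinearGroup.coe_mul, h1, Matrix.SpecialLinearGroup.coe_one]
    have h3 : ((a⁻¹ : SL) : Matrix (Fin 2) (Fin 2) ℝ) = (a : Matrix (Fin 2) (Fin 2) ℝ)ᵀ := by
      calc ((a⁻¹ : SL) : Matrix (Fin 2) (Fin 2) ℝ)
          = (a⁻¹ : SL) * ((a : Matrix (Fin 2) (Fin 2) ℝ) * (a : Matrix (Fin 2) (Fin 2) ℝ)ᵀ) := by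
            rw [ha, Matrix.mul_one]
        _ = (a : Matrix (Fin 2) (Fin 2) ℝ)ᵀ := by rw [← Matrix.mul_assoc, h2, Matrix.one_mul]
    rw [h3, Matrix.transpose_transpose]
    rw [← h3, h2]

theorem mem_SO2 (k : SL) : k ∈ SO2 ↔
    (k : Matrix (Fin 2) (Fin 2) ℝ) * (k : Matrix (Fin 2) (Fin 2) ℝ)ᵀ = 1 := Iff.rfl

/-- the diagonal matrix `diag(e^{s/2}, e^{-s/2})` -/
noncomputable def dg (s : ℝ) : SL :=
  ⟨!![Real.exp (s / 2), 0; 0, Real.exp (-(s / 2))], by
    rw [Matrix.det_fin_two_of, mul_zero, sub_zero, ← Real.exp_add, add_neg_cancel, Real.exp_zero]⟩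

/-- rotation matrix -/
noncomputable def rot (a b : ℝ) (h : a ^ 2 + b ^ 2 = 1) : SL :=
  ⟨!![a, -b; b, a], by rw [Matrix.det_fin_two_of]; linarith⟩

theorem rot_mem (a b : ℝ) (h : a ^ 2 + b ^ 2 = 1) : rot a b h ∈ SO2 := by
  rw [mem_SO2]
  ext i j
  fin_cases i <;> fin_cases j <;> simp [rot, Matrix.mul_apply, Fin.sum_univ_two] <;> nlinarith

theorem SO2_entries {k : SL} (hk : k ∈ SO2) :
    k 0 0 ^ 2 + k 1 0 ^ 2 = 1 ∧ k 0 1 = - k 1 0 ∧ k 1 1 = k 0 0 := by
  rw [mem_SO2] at hk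
  have h00 := congrFun (congrFun hk 0) 0
  have h01 := congrFun (congrFun hk 0) 1
  have h11 := congrFun (congrFun hk 1) 1
  simp [Matrix.mul_apply, Fin.sum_univ_two] at h00 h01 h11
  have hd := k.2
  rw [Matrix.det_fin_two] at hd
  obtain ⟨a, ha⟩ : ∃ a, a = k 0 0 := ⟨_, rfl⟩
  obtain ⟨b, hb⟩ : ∃ b, b = k 0 1 := ⟨_, rfl⟩
  obtain ⟨c, hc⟩ : ∃ c, c = k 1 0 := ⟨_, rfl⟩
  obtain ⟨d, hd'⟩ : ∃ d, d = k 1 1 := ⟨_, rfl⟩
  have e00 : a * a + b * b = 1 := by rw [ha, hb]; exact h00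
  have e01 : a * c + b * d = 0 := by rw [ha, hb, hc, hd']; exact h01
  have e11 : c * c + d * d = 1 := by rw [hc, hd']; exact h11
  have ed : a * d - b * c = 1 := by rw [ha, hb, hc, hd']; exact hd
  rw [← ha, ← hb, ← hc, ← hd']
  have h1 : (a - d) ^ 2 + (b + c) ^ 2 = 0 := by linarith
  have h2 : a - d = 0 := by
    have : (a - d) ^ 2 = 0 := by nlinarith [sq_nonneg (a - d), sq_nonneg (b + c)]
    exact pow_eq_zero_iff (two_ne_zero) |>.1 this
  have h3 : b + c = 0 := by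
    have : (b + c) ^ 2 = 0 := by nlinarith [sq_nonneg (a - d), sq_nonneg (b + c)]
    exact pow_eq_zero_iff (two_ne_zero) |>.1 this
  have h4 : d = a := by linarith
  have h5 : b = -c := by linarith
  refine ⟨?_, h5, h4⟩
  rw [h4] at e11
  linarith

/-- Cartan decomposition -/
theorem exists_cartan (g : SL) : ∃ t : ℝ, 0 ≤ t ∧ ∃ k ∈ SO2, ∃ k' ∈ SO2, g = k * dg t * k' := by
  obtain ⟨a, ha⟩ : ∃ a, a = g 0 0 := ⟨_, rfl⟩
  obtain ⟨b, hb⟩ : ∃ b, b = g 0 1 := ⟨_, rfl⟩
  obtain ⟨c, hc⟩ : ∃ c, c = g 1 0 := ⟨_, rfl⟩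
  obtain ⟨d, hd⟩ : ∃ d, d = g 1 1 := ⟨_, rfl⟩
  have hdet : a * d - b * c = 1 := by
    have := g.2
    rw [Matrix.det_fin_two] at this
    rw [ha, hb, hc, hd]
    exact this
  -- the symmetric matrix g gᵀ = [[A, B], [B, D]]
  obtain ⟨A, hA⟩ : ∃ A, A = a ^ 2 + b ^ 2 := ⟨_, rfl⟩
  obtain ⟨B, hB⟩ : ∃ B, B = a * c + b * d := ⟨_, rfl⟩
  obtain ⟨D, hD⟩ : ∃ D, D = c ^ 2 + d ^ 2 := ⟨_, rfl⟩
  have hABD : A * D - B ^ 2 = 1 := by
    rw [hA, hB, hD]
    linear_combination (a * d - b * c + 1) * hdet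
  obtain ⟨w, hw⟩ : ∃ w : ℂ, w = ⟨(A - D) / 2, B⟩ := ⟨_, rfl⟩
  obtain ⟨r, hr⟩ : ∃ r, r = ‖w‖ := ⟨_, rfl⟩
  obtain ⟨θ, hθ⟩ : ∃ θ, θ = w.arg / 2 := ⟨_, rfl⟩
  have hr0 : 0 ≤ r := by rw [hr]; exact norm_nonneg _
  have hre : (A - D) / 2 = r * Real.cos (2 * θ) := by
    have h := Complex.norm_mul_cos_arg w
    rw [hθ, hr]
    have h2 : 2 * (w.arg / 2) = w.arg := by ring
    rw [h2, h, hw]
  have him : B = r * Real.sin (2 * θ) := by
    have h := Complex.norm_mul_sin_arg w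
    rw [hθ, hr]
    have h2 : 2 * (w.arg / 2) = w.arg := by ring
    rw [h2, h, hw]
  obtain ⟨m, hm⟩ : ∃ m, m = (A + D) / 2 := ⟨_, rfl⟩
  have hm0 : 0 ≤ m := by rw [hm, hA, hD]; positivity
  have hmr : m ^ 2 - r ^ 2 = 1 := by
    have h1 : r ^ 2 = ((A - D) / 2) ^ 2 + B ^ 2 := by
      rw [hre, him]
      have := Real.sin_sq_add_cos_sq (2 * θ)
      linear_combination (-(r^2)) * this
    rw [h1, hm]
    linarith
  obtain ⟨t, ht⟩ : ∃ t, t = Real.arsinh r := ⟨_, rfl⟩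
  have ht0 : 0 ≤ t := by rw [ht]; exact Real.arsinh_nonneg_iff.2 hr0
  have hsinh : Real.sinh t = r := by rw [ht, Real.sinh_arsinh]
  have hcosh : Real.cosh t = m := by
    have h1 : Real.cosh t ^ 2 = m ^ 2 := by
      rw [Real.cosh_sq, hsinh]
      linarith
    have h2 := Real.cosh_pos t
    nlinarith [sq_nonneg (Real.cosh t - m), sq_nonneg (Real.cosh t + m)]
  have hexp : Real.exp t = m + r := by
    rw [← Real.cosh_add_sinh, hcosh, hsinh]
  have hexpn : Real.exp (-t) = m - r := by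
    rw [← Real.cosh_sub_sinh, hcosh, hsinh]
  obtain ⟨C, hC⟩ : ∃ C, C = Real.cos θ := ⟨_, rfl⟩
  obtain ⟨S, hS⟩ : ∃ S, S = Real.sin θ := ⟨_, rfl⟩
  have hCS : C ^ 2 + S ^ 2 = 1 := by
    rw [hC, hS]
    exact Real.cos_sq_add_sin_sq θ
  have h2c : Real.cos (2 * θ) = C ^ 2 - S ^ 2 := by
    rw [Real.cos_two_mul']
    rw [hC, hS]
  have h2s : Real.sin (2 * θ) = 2 * S * C := by
    rw [Real.sin_two_mul, hC, hS]
  rw [h2c] at hre
  rw [h2s] at him
  have hAe : A = m + r * (C ^ 2 - S ^ 2) := by linarith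
  have hDe : D = m - r * (C ^ 2 - S ^ 2) := by linarith
  obtain ⟨k, hk⟩ : ∃ k, k = rot C S hCS := ⟨_, rfl⟩
  obtain ⟨k', hk'⟩ : ∃ k', k' = (dg t)⁻¹ * k⁻¹ * g := ⟨_, rfl⟩
  refine ⟨t, ht0, k, by rw [hk]; exact rot_mem _ _ _, k', ?_, by rw [hk']; group⟩
  obtain ⟨e, he⟩ : ∃ e, e = Real.exp (t / 2) := ⟨_, rfl⟩
  obtain ⟨e', he'⟩ : ∃ e', e' = Real.exp (-(t / 2)) := ⟨_, rfl⟩
  have hee' : e * e' = 1 := by rw [he, he', ← Real.exp_add, add_neg_cancel, Real.exp_zero]
  have hee : e ^ 2 = m + r := by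
    rw [he, ← hexp, ← Real.exp_nat_mul]
    congr 1
    push_cast
    ring
  have hee2 : e' ^ 2 = m - r := by
    rw [he', ← hexpn, ← Real.exp_nat_mul]
    congr 1
    push_cast
    ring
  have hkm : (k' : Matrix (Fin 2) (Fin 2) ℝ) =
      !![e' * (C * a + S * c), e' * (C * b + S * d); e * (-S * a + C * c), e * (-S * b + C * d)] := by
    rw [hk', hk]
    rw [Matrix.SpecialLinearGroup.coe_mul, Matrix.SpecialLinearGroup.coe_mul, Matrix.SpecialLinearGroup.coe_inv,
      Matrix.SpecialLinearGroup.coe_inv]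
    ext i j
    fin_cases i <;> fin_cases j <;>
      simp [rot, dg, Matrix.adjugate_fin_two, Matrix.mul_apply, Fin.sum_univ_two, ← ha, ← hb,
        ← hc, ← hd, ← he, ← he'] <;> ring
  rw [mem_SO2, hkm]
  ext i j
  fin_cases i <;> fin_cases j
  · simp [Matrix.mul_apply, Fin.sum_univ_two]
    have : (e' * (C * a + S * c)) * (e' * (C * a + S * c)) +
        (e' * (C * b + S * d)) * (e' * (C * b + S * d)) =
        e' ^ 2 * (C ^ 2 * A + 2 * C * S * B + S ^ 2 * D) := by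
      rw [hA, hB, hD]; ring
    rw [this, hAe, hDe, him, hee2]
    have h5 : C ^ 2 * (m + r * (C ^ 2 - S ^ 2)) + 2 * C * S * (r * (2 * S * C)) +
      S ^ 2 * (m - r * (C ^ 2 - S ^ 2)) = m + r := by
      linear_combination (m + r * (C ^ 2 + S ^ 2 + 1)) * hCS
    rw [h5]
    linarith
  · simp [Matrix.mul_apply, Fin.sum_univ_two]
    have : (e' * (C * a + S * c)) * (e * (-(S * a) + C * c)) +
        (e' * (C * b + S * d)) * (e * (-(S * b) + C * d)) =
        (e * e') * (C * S * (D - A) + (C ^ 2 - S ^ 2) * B) := by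
      rw [hA, hB, hD]; ring
    rw [this, hAe, hDe, him]
    ring
  · simp [Matrix.mul_apply, Fin.sum_univ_two]
    have : (e * (-(S * a) + C * c)) * (e' * (C * a + S * c)) +
        (e * (-(S * b) + C * d)) * (e' * (C * b + S * d)) =
        (e * e') * (C * S * (D - A) + (C ^ 2 - S ^ 2) * B) := by
      rw [hA, hB, hD]; ring
    rw [this, hAe, hDe, him]
    ring
  · simp [Matrix.mul_apply, Fin.sum_univ_two]
    have : (e * (-(S * a) + C * c)) * (e * (-(S * a) + C * c)) +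
        (e * (-(S * b) + C * d)) * (e * (-(S * b) + C * d)) =
        e ^ 2 * (S ^ 2 * A - 2 * C * S * B + C ^ 2 * D) := by
      rw [hA, hB, hD]; ring
    rw [this, hAe, hDe, him, hee]
    have h5 : S ^ 2 * (m + r * (C ^ 2 - S ^ 2)) - 2 * C * S * (r * (2 * S * C)) +
      C ^ 2 * (m - r * (C ^ 2 - S ^ 2)) = m - r := by
      linear_combination (m - r * (C ^ 2 + S ^ 2 + 1)) * hCS
    rw [h5]
    linarith

theorem coe_smul' (g : SL) (z : ℍ) :
    ((g • z : ℍ) : ℂ) = (g 0 0 * z + g 0 1) / (g 1 0 * z + g 1 1) := by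
  rw [UpperHalfPlane.specialLinearGroup_apply]
  rfl

theorem SO2_smul_I {k : SL} (hk : k ∈ SO2) : k • (I : ℍ) = I := by
  obtain ⟨h1, h2, h3⟩ := SO2_entries hk
  apply UpperHalfPlane.ext
  rw [coe_smul', h2, h3]
  have h4 : ((k 1 0 : ℂ) * (UpperHalfPlane.I : ℍ) + (k 0 0 : ℂ)) ≠ 0 := by
    rw [UpperHalfPlane.coe_I]
    intro h
    have e1 := congrArg Complex.re h
    have e2 := congrArg Complex.im h
    simp at e1 e2
    rw [e1, e2] at h1
    norm_num at h1
  rw [div_eq_iff h4, UpperHalfPlane.coe_I]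
  push_cast
  linear_combination (-(k 1 0 : ℂ)) * Complex.I_mul_I

theorem dg_smul_I (t : ℝ) : (dg t • (I : ℍ)).re = 0 ∧ (dg t • (I : ℍ)).im = Real.exp t := by
  have h : ((dg t • (I : ℍ) : ℍ) : ℂ) = (Real.exp t : ℂ) * Complex.I := by
    rw [coe_smul']
    simp only [dg, Matrix.SpecialLinearGroup.coe_mk, Matrix.of_apply, Matrix.cons_val', Matrix.cons_val_zero,
      Matrix.cons_val_one, UpperHalfPlane.coe_I]
    have e1 : Real.exp t = Real.exp (t / 2) * Real.exp (t / 2) := by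
      rw [← Real.exp_add]; congr 1; ring
    have e2 : Real.exp (t / 2) * Real.exp (-(t / 2)) = 1 := by
      rw [← Real.exp_add, add_neg_cancel, Real.exp_zero]
    have e3 : (Real.exp (-(t / 2)) : ℂ) ≠ 0 := by
      exact_mod_cast (Real.exp_pos _).ne'
    have e4 : ((Real.exp (t / 2) : ℂ)) * (Real.exp (-(t / 2)) : ℂ) = 1 := by
      exact_mod_cast e2
    have e5 : (Real.exp t : ℂ) = (Real.exp (t / 2) : ℂ) * (Real.exp (t / 2) : ℂ) := by
      exact_mod_cast e1
    have e6 : ((0 : ℝ) : ℂ) = 0 := Complex.ofReal_zero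
    rw [e6, div_eq_iff (by rw [zero_mul, zero_add]; exact e3), e5]
    linear_combination (-(Real.exp (t/2) : ℂ) * Complex.I) * e4
  constructor
  · have := congrArg Complex.re h
    simpa using this
  · have := congrArg Complex.im h
    rw [Complex.im_ofReal_mul, Complex.I_im, mul_one] at this
    exact this

theorem dist_I_dg (t : ℝ) : dist (I : ℍ) (dg t • I) = |t| := by
  obtain ⟨h1, h2⟩ := dg_smul_I t
  rw [UpperHalfPlane.dist_of_re_eq (by rw [h1]; simp), h2, Real.log_exp, UpperHalfPlane.I_im,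
    Real.log_one, Real.dist_eq, zero_sub, abs_neg]

theorem dist_cartan {t : ℝ} (ht : 0 ≤ t) {k k' : SL} (hk : k ∈ SO2) (hk' : k' ∈ SO2) :
    dist (I : ℍ) ((k * dg t * k') • I) = t := by
  rw [mul_smul, SO2_smul_I hk', mul_smul]
  nth_rewrite 1 [← SO2_smul_I hk]
  rw [dist_smul, dist_I_dg, abs_of_nonneg ht]

theorem exists_smul_I (z : ℍ) : ∃ g : SL, g • (I : ℍ) = z := by
  obtain ⟨y, hy⟩ : ∃ y, y = Real.sqrt z.im := ⟨_, rfl⟩
  have hz := z.im_pos
  have hy0 : 0 < y := by rw [hy]; exact Real.sqrt_pos.2 hz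
  have hyy : y * y = z.im := by rw [hy]; exact Real.mul_self_sqrt hz.le
  have hdet : (!![y, z.re / y; 0, 1 / y] : Matrix (Fin 2) (Fin 2) ℝ).det = 1 := by
    rw [Matrix.det_fin_two_of, mul_zero, sub_zero, mul_one_div, div_self hy0.ne']
  obtain ⟨g, hg⟩ : ∃ g : SL, g = ⟨!![y, z.re / y; 0, 1 / y], hdet⟩ := ⟨_, rfl⟩
  have g00 : g 0 0 = y := by rw [hg]; rfl
  have g01 : g 0 1 = z.re / y := by rw [hg]; rfl
  have g10 : g 1 0 = 0 := by rw [hg]; rfl
  have g11 : g 1 1 = 1 / y := by rw [hg]; rfl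
  refine ⟨g, ?_⟩
  · apply UpperHalfPlane.ext
    rw [coe_smul', g00, g01, g10, g11, UpperHalfPlane.coe_I]
    have hyc : (y : ℂ) ≠ 0 := by exact_mod_cast hy0.ne'
    have e1 : ((z.re / y : ℝ) : ℂ) = (z.re : ℂ) / y := by push_cast; rfl
    have e2 : ((1 / y : ℝ) : ℂ) = 1 / (y : ℂ) := by push_cast; rfl
    have e3 : (y : ℂ) * y = z.im := by exact_mod_cast hyy
    have e4 : (z : ℂ) = z.re + z.im * Complex.I := (Complex.re_add_im _).symm
    have e6 : ((0 : ℝ) : ℂ) = 0 := Complex.ofReal_zero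
    rw [e1, e2, e4, ← e3, e6, zero_mul, zero_add]
    field_simp
    ring

theorem geod_H : Geod ℍ := by
  intro x y s hs hs'
  obtain ⟨g, rfl⟩ := exists_smul_I x
  obtain ⟨g', rfl⟩ := exists_smul_I y
  obtain ⟨t, ht, k, hk, k', hk', h⟩ := exists_cartan (g⁻¹ * g')
  have h1 : g' = g * (k * dg t * k') := by rw [← h]; group
  have hd : dist (g • (I : ℍ)) (g' • I) = t := by
    rw [h1, mul_smul, dist_smul, dist_cartan ht hk hk']
  rw [hd] at hs' ⊢
  have hmul : ∀ a b : ℝ, dg a * dg b = dg (a + b) := by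
    intro a b
    apply Subtype.ext
    rw [Matrix.SpecialLinearGroup.coe_mul]
    ext i j
    fin_cases i <;> fin_cases j <;> simp [dg, Matrix.mul_apply, Fin.sum_univ_two, ← Real.exp_add]
      <;> ring
  refine ⟨(g * (k * dg s)) • I, ?_, ?_⟩
  · rw [mul_smul, dist_smul]
    have := dist_cartan hs hk (one_mem SO2)
    rwa [mul_one] at this
  · have h2 : g' = g * (k * dg s) * (dg (t - s) * k') := by
      rw [h1]
      have : dg t = dg s * dg (t - s) := by rw [hmul]; congr 1; ring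
      rw [this]
      group
    rw [h2, mul_smul (g * (k * dg s)), dist_smul]
    have := dist_cartan (sub_nonneg.2 hs') (one_mem SO2) hk'
    rwa [one_mul] at this

/-- `|z - \bar w|` -/
noncomputable def nn (z w : ℍ) : ℝ := dist (z : ℂ) (starRingEnd ℂ (w : ℂ))

theorem nn_eq (z w : ℍ) : nn z w = Real.cosh (dist z w / 2) * (2 * Real.sqrt (z.im * w.im)) := by
  rw [UpperHalfPlane.cosh_half_dist]
  have h : 0 < 2 * Real.sqrt (z.im * w.im) :=
    mul_pos two_pos (Real.sqrt_pos.2 (mul_pos z.im_pos w.im_pos))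
  unfold nn
  field_simp

theorem nn_pos (z w : ℍ) : 0 < nn z w := by
  rw [nn_eq]
  have h : 0 < 2 * Real.sqrt (z.im * w.im) :=
    mul_pos two_pos (Real.sqrt_pos.2 (mul_pos z.im_pos w.im_pos))
  exact mul_pos (Real.cosh_pos _) h

theorem cosh_le_exp {x : ℝ} (hx : 0 ≤ x) : Real.cosh x ≤ Real.exp x := by
  rw [Real.cosh_eq]
  have : Real.exp (-x) ≤ Real.exp x := Real.exp_le_exp.2 (by linarith)
  linarith

theorem exp_le_two_cosh (x : ℝ) : Real.exp x ≤ 2 * Real.cosh x := by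
  rw [Real.cosh_eq]
  have : 0 < Real.exp (-x) := Real.exp_pos _
  linarith

theorem im_le_nn (z w : ℍ) : z.im ≤ nn z w := by
  unfold nn
  rw [Complex.dist_eq]
  have h1 := Complex.abs_im_le_norm ((z : ℂ) - (starRingEnd ℂ) (w : ℂ))
  rw [Complex.sub_im, Complex.conj_im] at h1
  have h2 : (z : ℂ).im = z.im := rfl
  have h3 : (w : ℂ).im = w.im := rfl
  rw [h2, h3] at h1
  have h4 := le_abs_self (z.im - -w.im)
  have := w.im_pos
  linarith

theorem nn_comm (z w : ℍ) : nn z w = nn w z := by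
  rw [nn_eq, nn_eq, dist_comm, mul_comm z.im]

theorem norm_sub_le_nn (z w : ℍ) : ‖(z : ℂ) - w‖ ≤ nn z w := by
  unfold nn
  rw [Complex.dist_eq]
  rw [← sq_le_sq₀ (norm_nonneg _) (norm_nonneg _), ← Complex.normSq_eq_norm_sq,
    ← Complex.normSq_eq_norm_sq, Complex.normSq_apply, Complex.normSq_apply]
  simp only [Complex.sub_im, Complex.conj_im, Complex.sub_re, Complex.conj_re]
  have h2 : (z : ℂ).im = z.im := rfl
  have h3 : (w : ℂ).im = w.im := rfl
  rw [h2, h3]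
  nlinarith [mul_pos z.im_pos w.im_pos]

/-- Ptolemy type inequality -/
theorem ptolemy (a b c d : ℍ) : nn a b * nn c d ≤ nn a d * nn c b + nn a c * nn b d := by
  have key : ((a : ℂ) - (starRingEnd ℂ) (b : ℂ)) * ((c : ℂ) - (starRingEnd ℂ) (d : ℂ)) =
      ((a : ℂ) - (starRingEnd ℂ) (d : ℂ)) * ((c : ℂ) - (starRingEnd ℂ) (b : ℂ)) +
      ((a : ℂ) - c) * (starRingEnd ℂ) ((b : ℂ) - d) := by
    rw [map_sub]
    ring
  have e1 : nn a b = ‖(a : ℂ) - (starRingEnd ℂ) (b : ℂ)‖ := by unfold nn; rw [Complex.dist_eq]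
  have e2 : nn c d = ‖(c : ℂ) - (starRingEnd ℂ) (d : ℂ)‖ := by unfold nn; rw [Complex.dist_eq]
  have e3 : nn a d = ‖(a : ℂ) - (starRingEnd ℂ) (d : ℂ)‖ := by unfold nn; rw [Complex.dist_eq]
  have e4 : nn c b = ‖(c : ℂ) - (starRingEnd ℂ) (b : ℂ)‖ := by unfold nn; rw [Complex.dist_eq]
  rw [e1, e2, ← norm_mul, key]
  refine (norm_add_le _ _).trans ?_
  rw [norm_mul, norm_mul, ← e3, ← e4, RCLike.norm_conj]
  have h1 := norm_sub_le_nn a c
  have h2 := norm_sub_le_nn b d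
  have := mul_le_mul h1 h2 (norm_nonneg _) (nn_pos a c).le
  linarith

theorem hyp_H : Hyp ℍ (Real.log 8) := by
  intro x y z w
  have hP := ptolemy x y z w
  have hd : ∀ p q : ℍ, 0 ≤ dist p q / 2 := fun p q => by positivity
  -- the common factor
  obtain ⟨S, hS⟩ : ∃ S, S = (2 * Real.sqrt (x.im * y.im)) * (2 * Real.sqrt (z.im * w.im)) :=
    ⟨_, rfl⟩
  have hS0 : 0 < S := by
    rw [hS]
    exact mul_pos (mul_pos two_pos (Real.sqrt_pos.2 (mul_pos x.im_pos y.im_pos)))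
      (mul_pos two_pos (Real.sqrt_pos.2 (mul_pos z.im_pos w.im_pos)))
  have hsq : ∀ a b : ℝ, 0 < a → Real.sqrt (a * b) = Real.sqrt a * Real.sqrt b :=
    fun a b ha => Real.sqrt_mul ha.le b
  have hS1 : (2 * Real.sqrt (x.im * w.im)) * (2 * Real.sqrt (z.im * y.im)) = S := by
    rw [hS, hsq _ _ x.im_pos, hsq _ _ z.im_pos, hsq _ _ x.im_pos, hsq _ _ z.im_pos]
    ring
  have hS2 : (2 * Real.sqrt (x.im * z.im)) * (2 * Real.sqrt (y.im * w.im)) = S := by
    rw [hS, hsq _ _ x.im_pos, hsq _ _ z.im_pos, hsq _ _ x.im_pos, hsq _ _ y.im_pos]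
    ring
  have e1 : nn x y * nn z w = Real.cosh (dist x y / 2) * Real.cosh (dist z w / 2) * S := by
    rw [nn_eq, nn_eq, hS]; ring
  have e2 : nn x w * nn z y = Real.cosh (dist x w / 2) * Real.cosh (dist z y / 2) * S := by
    rw [nn_eq, nn_eq, ← hS1]; ring
  have e3 : nn x z * nn y w = Real.cosh (dist x z / 2) * Real.cosh (dist y w / 2) * S := by
    rw [nn_eq, nn_eq, ← hS2]; ring
  rw [e1, e2, e3, ← add_mul] at hP
  have hP2 := le_of_mul_le_mul_right hP hS0
  have l1 : Real.exp ((dist x y + dist z w) / 2) ≤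
      4 * (Real.cosh (dist x y / 2) * Real.cosh (dist z w / 2)) := by
    have h : (dist x y + dist z w) / 2 = dist x y / 2 + dist z w / 2 := by ring
    rw [h, Real.exp_add]
    have := mul_le_mul (exp_le_two_cosh (dist x y / 2)) (exp_le_two_cosh (dist z w / 2))
      (Real.exp_pos _).le (mul_pos two_pos (Real.cosh_pos _)).le
    linarith
  have l2 : Real.cosh (dist x w / 2) * Real.cosh (dist z y / 2) ≤
      Real.exp ((dist x w + dist y z) / 2) := by
    have h : (dist x w + dist y z) / 2 = dist x w / 2 + dist z y / 2 := by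
      rw [dist_comm y z]; ring
    rw [h, Real.exp_add]
    exact mul_le_mul (cosh_le_exp (hd _ _)) (cosh_le_exp (hd _ _)) (Real.cosh_pos _).le
      (Real.exp_pos _).le
  have l3 : Real.cosh (dist x z / 2) * Real.cosh (dist y w / 2) ≤
      Real.exp ((dist x z + dist y w) / 2) := by
    have h : (dist x z + dist y w) / 2 = dist x z / 2 + dist y w / 2 := by ring
    rw [h, Real.exp_add]
    exact mul_le_mul (cosh_le_exp (hd _ _)) (cosh_le_exp (hd _ _)) (Real.cosh_pos _).le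
      (Real.exp_pos _).le
  obtain ⟨M, hM⟩ : ∃ M, M = max (dist x z + dist y w) (dist x w + dist y z) := ⟨_, rfl⟩
  have m1 : Real.exp ((dist x z + dist y w) / 2) ≤ Real.exp (M / 2) := by
    apply Real.exp_le_exp.2
    have : dist x z + dist y w ≤ M := by rw [hM]; exact le_max_left _ _
    linarith
  have m2 : Real.exp ((dist x w + dist y z) / 2) ≤ Real.exp (M / 2) := by
    apply Real.exp_le_exp.2
    have : dist x w + dist y z ≤ M := by rw [hM]; exact le_max_right _ _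
    linarith
  have fin : Real.exp ((dist x y + dist z w) / 2) ≤ Real.exp (M / 2 + Real.log 8) := by
    rw [Real.exp_add, Real.exp_log (by norm_num)]
    linarith
  have := Real.exp_le_exp.1 fin
  rw [← hM]
  linarith

/-- the inequality at a centre, for a pair of vertices -/
theorem center_pair {D : ℝ} {w a b : ℍ} (h : dist w a + dist w b ≤ dist a b + D) :
    nn w a * nn w b ≤ 4 * Real.exp (D / 2) * w.im * nn a b := by
  have hd : ∀ p q : ℍ, 0 ≤ dist p q / 2 := fun p q => by positivity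
  obtain ⟨s, hs⟩ : ∃ s, s = Real.sqrt (a.im * b.im) := ⟨_, rfl⟩
  have hs0 : 0 < s := by rw [hs]; exact Real.sqrt_pos.2 (mul_pos a.im_pos b.im_pos)
  have hprod : (2 * Real.sqrt (w.im * a.im)) * (2 * Real.sqrt (w.im * b.im)) = 4 * w.im * s := by
    rw [hs, Real.sqrt_mul w.im_pos.le, Real.sqrt_mul w.im_pos.le, Real.sqrt_mul a.im_pos.le]
    have := Real.mul_self_sqrt w.im_pos.le
    linear_combination (4 * Real.sqrt a.im * Real.sqrt b.im) * this
  have e1 : nn w a * nn w b = Real.cosh (dist w a / 2) * Real.cosh (dist w b / 2) *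
      (4 * w.im * s) := by
    rw [nn_eq, nn_eq, ← hprod]; ring
  have e2 : nn a b = Real.cosh (dist a b / 2) * (2 * s) := by rw [nn_eq, hs]
  have l1 : Real.cosh (dist w a / 2) * Real.cosh (dist w b / 2) ≤
      Real.exp ((dist w a + dist w b) / 2) := by
    have h : (dist w a + dist w b) / 2 = dist w a / 2 + dist w b / 2 := by ring
    rw [h, Real.exp_add]
    exact mul_le_mul (cosh_le_exp (hd _ _)) (cosh_le_exp (hd _ _)) (Real.cosh_pos _).le
      (Real.exp_pos _).le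
  have l2 : Real.exp ((dist w a + dist w b) / 2) ≤ Real.exp (D / 2) * Real.exp (dist a b / 2) := by
    rw [← Real.exp_add]
    apply Real.exp_le_exp.2
    linarith
  have l3 := exp_le_two_cosh (dist a b / 2)
  have l4 : Real.exp (D / 2) * Real.exp (dist a b / 2) ≤
      Real.exp (D / 2) * (2 * Real.cosh (dist a b / 2)) :=
    mul_le_mul_of_nonneg_left l3 (Real.exp_pos _).le
  have l5 : Real.cosh (dist w a / 2) * Real.cosh (dist w b / 2) ≤
      2 * Real.exp (D / 2) * Real.cosh (dist a b / 2) := by linarith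
  rw [e1, e2]
  have := mul_le_mul_of_nonneg_right l5 (by
    have := w.im_pos
    positivity : 0 ≤ 4 * w.im * s)
  refine this.trans (le_of_eq ?_)
  ring

/-- the position of a centre of a triangle whose vertex `c` is far away -/
theorem center_pos {D : ℝ} {w a b c : ℍ} (h : IsCenter D w a b c) {M : ℝ}
    (hM : M = 4 * Real.exp (D / 2)) (hac : 2 * M * nn a b ≤ nn a c)
    (hbc : 2 * M * nn a b ≤ nn b c) :
    nn w b ≤ M * nn a b ∧ w.im ≤ M * nn a b ∧ nn a b ≤ 4 * M * w.im := by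
  obtain ⟨h1, h2, h3⟩ := h
  have c1 := center_pair h1
  have c2 := center_pair h2
  have c3 := center_pair h3
  rw [← hM] at c1 c2 c3
  have hM0 : 0 < M := by rw [hM]; have := Real.exp_pos (D / 2); linarith
  have y0 := w.im_pos
  have ya := im_le_nn w a
  have yb := im_le_nn w b
  have pa := nn_pos w a
  have pb := nn_pos w b
  have pc := nn_pos w c
  have pab := nn_pos a b
  have wb : nn w b ≤ M * nn a b := by
    have : w.im * nn w b ≤ w.im * (M * nn a b) := by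
      calc w.im * nn w b ≤ nn w a * nn w b := mul_le_mul_of_nonneg_right ya pb.le
        _ ≤ M * w.im * nn a b := c1
        _ = w.im * (M * nn a b) := by ring
    exact le_of_mul_le_mul_left this y0
  have wa : nn w a ≤ M * nn a b := by
    have : w.im * nn w a ≤ w.im * (M * nn a b) := by
      calc w.im * nn w a ≤ nn w b * nn w a := mul_le_mul_of_nonneg_right yb pa.le
        _ = nn w a * nn w b := mul_comm _ _
        _ ≤ M * w.im * nn a b := c1
        _ = w.im * (M * nn a b) := by ring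
    exact le_of_mul_le_mul_left this y0
  -- triangle inequality
  have tri : ∀ p q r : ℍ, nn p r ≤ nn p q + nn q r := by
    intro p q r
    have h1 := norm_sub_le_nn p q
    have h2 : nn p r ≤ ‖(p : ℂ) - q‖ + nn q r := by
      unfold nn
      rw [← Complex.dist_eq]
      exact dist_triangle _ _ _
    linarith
  have bw := nn_comm b w
  have aw := nn_comm a w
  have wc1 : nn b c ≤ 2 * nn w c := by
    have := tri b w c
    rw [bw] at this
    linarith
  have wc2 : nn a c ≤ 2 * nn w c := by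
    have := tri a w c
    rw [aw] at this
    linarith
  have wb2 : nn w b ≤ 2 * M * w.im := by
    have h5 : nn w b * nn w c ≤ (2 * M * w.im) * nn w c := by
      have h6 : M * w.im * nn b c ≤ M * w.im * (2 * nn w c) :=
        mul_le_mul_of_nonneg_left wc1 (mul_pos hM0 y0).le
      linarith
    exact le_of_mul_le_mul_right h5 pc
  have wa2 : nn w a ≤ 2 * M * w.im := by
    have h5 : nn w a * nn w c ≤ (2 * M * w.im) * nn w c := by
      have h6 : M * w.im * nn a c ≤ M * w.im * (2 * nn w c) :=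
        mul_le_mul_of_nonneg_left wc2 (mul_pos hM0 y0).le
      linarith
    exact le_of_mul_le_mul_right h5 pc
  refine ⟨wb, yb.trans wb, ?_⟩
  have := tri a w b
  rw [aw] at this
  linarith

end Pool.Agent.H817.HGeom
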